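import Pool.Agent.TH890.AS.R5

/-!
# Primitive roots in families of sets of primes

The theorem of helper890 on arbitrary sets of primes (`Pool.Agent.TH890.AS.artin_sets`) for all
members of a family at once.
-/

set_option autoImplicit false

namespace Pool.Agent.Q241.AP

open Finset
open Pool.Agent.TH890.AS (locDens artin_sets ev_rpow)

open Classical in
/-- the difference between the number of the `p ∈ S` modulo which `B m ^ r` is a primitive root and the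
sum of the local densities -/
noncomputable def Dev (B : ℤ) (r m : ℕ) (S : Finset ℕ) : ℝ :=
  |(#(S.filter (fun p => orderOf ((B * (m : ℤ) ^ r : ℤ) : ZMod p) = p - 1)) : ℝ) -
    ∑ p ∈ S, locDens B r p|

lemma loc_bounds (B : ℤ) (r p : ℕ) : 0 ≤ locDens B r p ∧ locDens B r p ≤ 1 := by
  classical
  unfold locDens
  split_ifs with h
  · exact ⟨le_rfl, zero_le_one⟩
  · have h1 : ∀ l ∈ (p - 1).primeFactors.filter (fun l => ¬ l ∣ r),
        0 ≤ (1 - 1 / (l : ℝ)) ∧ (1 - 1 / (l : ℝ)) ≤ 1 := by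
      intro l hl
      rw [mem_filter, Nat.mem_primeFactors] at hl
      have h2 : (1 : ℝ) ≤ l := by exact_mod_cast hl.1.1.one_le
      have h3 : 1 / (l : ℝ) ≤ 1 := by rw [div_le_one (by linarith)]; exact h2
      have h4 : 0 ≤ 1 / (l : ℝ) := by positivity
      constructor <;> linarith
    exact ⟨prod_nonneg fun l hl => (h1 l hl).1, prod_le_one (fun l hl => (h1 l hl).1)
      fun l hl => (h1 l hl).2⟩

lemma dev_le_card (B : ℤ) (r m : ℕ) (S : Finset ℕ) : Dev B r m S ≤ #S := by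
  classical
  unfold Dev
  have h1 : (#(S.filter (fun p => orderOf ((B * (m : ℤ) ^ r : ℤ) : ZMod p) = p - 1)) : ℝ) ≤ #S := by
    exact_mod_cast card_filter_le _ _
  have h2 : ∑ p ∈ S, locDens B r p ≤ #S := by
    calc ∑ p ∈ S, locDens B r p ≤ ∑ _p ∈ S, (1 : ℝ) := sum_le_sum fun p _ => (loc_bounds B r p).2
      _ = #S := by rw [sum_const, nsmul_eq_mul, mul_one]
  have h3 : 0 ≤ ∑ p ∈ S, locDens B r p := sum_nonneg fun p _ => (loc_bounds B r p).1
  have h4 : (0 : ℝ) ≤ #(S.filter (fun p => orderOf ((B * (m : ℤ) ^ r : ℤ) : ZMod p) = p - 1)) :=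
    Nat.cast_nonneg _
  rw [abs_le]
  constructor <;> linarith

lemma dev_sub (B : ℤ) (r m : ℕ) {S T : Finset ℕ} (h : T ⊆ S) :
    Dev B r m S ≤ Dev B r m T + #(S \ T) := by
  classical
  have h0 := dev_le_card B r m (S \ T)
  refine le_trans ?_ (add_le_add_right h0 _)
  unfold Dev
  have e1 : (#(S.filter (fun p => orderOf ((B * (m : ℤ) ^ r : ℤ) : ZMod p) = p - 1)) : ℝ) =
      #(T.filter (fun p => orderOf ((B * (m : ℤ) ^ r : ℤ) : ZMod p) = p - 1)) +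
      #((S \ T).filter (fun p => orderOf ((B * (m : ℤ) ^ r : ℤ) : ZMod p) = p - 1)) := by
    rw [← Nat.cast_add, ← card_union_of_disjoint]
    · rw [← filter_union, union_sdiff_of_subset h]
    · exact disjoint_filter_filter disjoint_sdiff
  have e2 : ∑ p ∈ S, locDens B r p = ∑ p ∈ T, locDens B r p + ∑ p ∈ S \ T, locDens B r p := by
    rw [add_comm, sum_sdiff h]
  rw [e1, e2]
  refine le_trans (le_of_eq ?_) (abs_add_le _ _)
  congr 1
  ring

open Classical in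
/-- **Families of sets of primes.** -/
theorem family (k C : ℕ) (hk : 1 ≤ k) (hC : 1 ≤ C) (σ τ : ℝ) (hσ : 0 < σ) (hτ : τ < σ / k) :
    ∃ c : ℝ, 0 < c ∧ ∃ X₀ : ℕ, ∀ X : ℕ, X₀ ≤ X → ∀ N : ℕ, X ^ 2 ≤ N ^ k → N ≤ X ^ C →
    ∀ F : Finset (Finset ℕ), (#F : ℝ) ≤ (X : ℝ) ^ τ →
      (∀ S ∈ F, (∀ p ∈ S, p.Prime ∧ p ≤ X) ∧ (X : ℝ) ^ σ ≤ #S) → ∀ (B : ℤ) (r : ℕ), 1 ≤ r →
    (#((Icc 1 N).filter (fun m : ℕ => ∃ S ∈ F, #S * (X : ℝ) ^ (-c) < Dev B r m S)) : ℝ) ≤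
      N * (X : ℝ) ^ (-c) := by
  have hk0 : (0 : ℝ) < k := by exact_mod_cast hk
  have hg : 0 < σ - k * τ := by
    rw [lt_div_iff₀ hk0] at hτ
    linarith
  obtain ⟨c, hc, X₀, h⟩ := artin_sets σ ((σ - k * τ) / 2) hσ (by linarith) k C hk hC
  set c' := min c ((σ - k * τ) / (2 * k)) with hc'
  have hc'0 : 0 < c' := lt_min hc (by positivity)
  refine ⟨c', hc'0, max X₀ 1, fun X hX N hN1 hN2 F hF hS B r hr => ?_⟩
  have hX1 : (1 : ℝ) ≤ X := by exact_mod_cast (le_max_right _ _).trans hX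
  have hX0 : (0 : ℝ) < X := by linarith
  have hcc : (X : ℝ) ^ (-c) ≤ (X : ℝ) ^ (-c') :=
    Real.rpow_le_rpow_of_exponent_le hX1 (by linarith [min_le_left c ((σ - k * τ) / (2 * k))])
  have hsub : (Icc 1 N).filter (fun m : ℕ => ∃ S ∈ F, #S * (X : ℝ) ^ (-c') < Dev B r m S) ⊆
      F.biUnion (fun S => (Icc 1 N).filter (fun m : ℕ => #S * (X : ℝ) ^ (-c) <
      |(#(S.filter (fun p => orderOf ((B * (m : ℤ) ^ r : ℤ) : ZMod p) = p - 1)) : ℝ) -
        ∑ p ∈ S, locDens B r p|)) := by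
    intro m hm
    rw [mem_filter] at hm
    obtain ⟨hm1, S, hSF, hlt⟩ := hm
    rw [mem_biUnion]
    refine ⟨S, hSF, mem_filter.2 ⟨hm1, lt_of_le_of_lt ?_ hlt⟩⟩
    exact mul_le_mul_of_nonneg_left hcc (Nat.cast_nonneg _)
  have h1 : (#((Icc 1 N).filter (fun m : ℕ => ∃ S ∈ F, #S * (X : ℝ) ^ (-c') < Dev B r m S)) : ℝ) ≤
      ∑ S ∈ F, (#((Icc 1 N).filter (fun m : ℕ => #S * (X : ℝ) ^ (-c) <
      |(#(S.filter (fun p => orderOf ((B * (m : ℤ) ^ r : ℤ) : ZMod p) = p - 1)) : ℝ) -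
        ∑ p ∈ S, locDens B r p|)) : ℝ) := by
    refine le_trans (Nat.cast_le.2 (card_le_card hsub)) ?_
    refine le_trans (Nat.cast_le.2 card_biUnion_le) ?_
    rw [Nat.cast_sum]
  have h2 : ∀ S ∈ F, (#((Icc 1 N).filter (fun m : ℕ => #S * (X : ℝ) ^ (-c) <
      |(#(S.filter (fun p => orderOf ((B * (m : ℤ) ^ r : ℤ) : ZMod p) = p - 1)) : ℝ) -
        ∑ p ∈ S, locDens B r p|)) : ℝ) ≤ N * (X : ℝ) ^ (-(σ - (σ - k * τ) / 2) / k) := by
    intro S hSF
    exact h X ((le_max_left _ _).trans hX) N hN1 hN2 S (hS S hSF).1 (hS S hSF).2 B r hr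
  refine h1.trans ((sum_le_sum h2).trans ?_)
  rw [sum_const, nsmul_eq_mul]
  have h3 : (#F : ℝ) * (N * (X : ℝ) ^ (-(σ - (σ - k * τ) / 2) / k)) ≤
      (X : ℝ) ^ τ * (N * (X : ℝ) ^ (-(σ - (σ - k * τ) / 2) / k)) :=
    mul_le_mul_of_nonneg_right hF (by positivity)
  refine h3.trans ?_
  have h4 : (X : ℝ) ^ τ * (N * (X : ℝ) ^ (-(σ - (σ - k * τ) / 2) / k)) =
      N * (X : ℝ) ^ (-((σ - k * τ) / (2 * k))) := by
    have e : -((σ - k * τ) / (2 * k)) = τ + -(σ - (σ - k * τ) / 2) / k := by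
      field_simp
      ring
    rw [e, Real.rpow_add hX0]
    ring
  rw [h4]
  refine mul_le_mul_of_nonneg_left ?_ (Nat.cast_nonneg _)
  exact Real.rpow_le_rpow_of_exponent_le hX1
    (by linarith [min_le_right c ((σ - k * τ) / (2 * k))])

end Pool.Agent.Q241.AP
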